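import Pool.Agent.Work.MP_3587fb_co.Full

/-! A direct factor `A` of `ZMod ω` of size `n` with more than half of its elements in `[0, n-1]`
is a complete set of residues modulo `n`. -/

namespace Pool.Agent.Results.MP_3587fb_co.Complete

open Finset Pool.Agent.Work.MP_3587fb_co

theorem result (ω n : ℕ) (hω : 0 < ω) (A : Finset (ZMod ω)) (B : Set (ZMod ω))
    (hfac : ∀ g : ZMod ω, ∃! x : ZMod ω × ZMod ω, x.1 ∈ A ∧ x.2 ∈ B ∧ x.1 + x.2 = g)
    (hn : A.card = n)
    (hint : n + 1 ≤ 2 * (A ∩ (Finset.range n).image (fun i : ℕ => (i : ZMod ω))).card) :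
    ∃ h : n ∣ ω, Set.BijOn (ZMod.castHom h (ZMod n)) (A : Set (ZMod ω)) Set.univ := by
  have : NeZero ω := ⟨hω.ne'⟩
  set φ : ZMod ω → ℤ := fun a => (a.val : ℤ) with hφ
  have hφc : ∀ a, ((φ a : ℤ) : ZMod ω) = a := fun a => by simp [hφ]
  have hφi : Function.Injective φ := fun a a' e => by rw [← hφc a, ← hφc a', e]
  set A0 : Finset ℤ := A.image φ with hA0
  set B0 : Set ℤ := {y | (y : ZMod ω) ∈ B} with hB0
  have hc : A0.card = n := by rw [hA0, card_image_of_injective _ hφi, hn]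
  have ht : Tl ω A0 B0 := by
    refine ⟨hω, fun y => by simp [hB0], fun z => ?_⟩
    obtain ⟨⟨a, b⟩, ⟨ha, hb, e⟩, hu⟩ := hfac (z : ZMod ω)
    refine ⟨φ a, ⟨mem_image_of_mem _ ha, ?_⟩, ?_⟩
    · simp only [hB0, Set.mem_ofPred_eq, Int.cast_sub, hφc]
      simp only at e hb
      rw [← e, add_sub_cancel_left]; exact hb
    · rintro y ⟨hy, hy'⟩
      obtain ⟨a', ha', rfl⟩ := mem_image.1 hy
      simp only [hB0, Set.mem_ofPred_eq, Int.cast_sub, hφc] at hy'
      have := hu (a', z - a') ⟨ha', hy', by simp⟩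
      rw [(Prod.mk.inj this).1]
  have hcard := ht.card
  rw [hc] at hcard
  have hn0 : 0 < n := hc ▸ ht.cpos
  have hd : n ∣ ω := ⟨_, hcard.symm⟩
  have hle : n ≤ ω := Nat.le_of_dvd hω hd
  have hden : A0.card < 2 * (ini A0.card A0).card := by
    have h1 : (A ∩ (Finset.range n).image (fun i : ℕ => (i : ZMod ω))).card ≤
        (ini A0.card A0).card := by
      refine card_le_card_of_injOn φ (fun a ha => ?_) hφi.injOn
      simp only [coe_inter, Set.mem_inter_iff, mem_coe, mem_image, mem_range] at ha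
      obtain ⟨ha, i, hi, rfl⟩ := ha
      simp only [ini, coe_filter, Set.mem_ofPred_eq]
      refine ⟨mem_image_of_mem _ ha, Int.natCast_nonneg _, ?_⟩
      rw [hc, hφ]
      simp only
      rw [ZMod.val_natCast, Nat.mod_eq_of_lt (hi.trans_le hle)]
      exact_mod_cast hi
    omega
  have hcomp := stmt2 ω A0 A0 B0 ht ht hden
  rw [hc] at hcomp
  have : NeZero n := ⟨hn0.ne'⟩
  have hinj : Set.InjOn (ZMod.castHom hd (ZMod n)) (A : Set (ZMod ω)) := by
    intro a ha a' ha' e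
    refine hφi (hcomp _ (mem_image_of_mem _ ha) _ (mem_image_of_mem _ ha') ?_)
    rw [← hφc a, ← hφc a', map_intCast, map_intCast] at e
    exact (ZMod.intCast_eq_intCast_iff_dvd_sub _ _ _).1 e.symm
  refine ⟨hd, Set.mapsTo_univ _ _, hinj, ?_⟩
  have h2 : (A.image (ZMod.castHom hd (ZMod n))) = univ := by
    apply eq_univ_of_card
    rw [card_image_of_injOn hinj, hn, ZMod.card]
  intro y _
  have h3 : y ∈ A.image (ZMod.castHom hd (ZMod n)) := h2 ▸ mem_univ y
  obtain ⟨a, ha, e⟩ := mem_image.1 h3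
  exact ⟨a, ha, e⟩

end Pool.Agent.Results.MP_3587fb_co.Complete
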